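import Pool.Agent.Helper38.XF.Tools

/-!
# XF, part ONE: the case of one variable
-/

set_option autoImplicit false

namespace Pool.Agent.Helper90.XF.ONE

open Polynomial Pool.Agent.Helper38.XF

/-- an algebraic relation for the class of `c` modulo `g` -/
lemma exists_rel {K : Type} [Field K] (g c : K[X]) (hg : g ≠ 0) :
    ∃ m : K[X], m ≠ 0 ∧ g ∣ m.comp c := by
  have hfin : Module.Finite K (AdjoinRoot g) := (AdjoinRoot.powerBasis hg).finite
  obtain ⟨m, hm, hm0⟩ := IsIntegral.of_finite K (AdjoinRoot.mk g c)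
  refine ⟨m, hm.ne_zero, ?_⟩
  rw [← AdjoinRoot.mk_eq_zero, Polynomial.comp, Polynomial.hom_eval₂]
  exact hm0

lemma eval₂_derivative_sum {K L : Type} [Field K] [Field L] (f : K →+* L) (g : K[X]) (a : L) :
    eval₂ f a (derivative g) = ∑ i ∈ Finset.range (g.natDegree + 1),
      (i : L) * f (g.coeff i) * a ^ (i - 1) := by
  conv_lhs => rw [g.as_sum_range_C_mul_X_pow]
  rw [map_sum, Polynomial.eval₂_finsetSum]
  refine Finset.sum_congr rfl fun i _ => ?_
  rw [Polynomial.derivative_C_mul_X_pow, Polynomial.eval₂_mul, Polynomial.eval₂_C,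
    Polynomial.eval₂_X_pow, map_mul, map_natCast]
  ring

lemma eval₂_aeval {k K L κ : Type} [Field k] [Field K] [Field L] [Algebra k K] [Algebra k L]
    (φ : K →ₐ[k] L) (α : L) (c : κ → K[X]) (F : MvPolynomial κ k) :
    eval₂ (φ : K →+* L) α (MvPolynomial.aeval c F)
      = MvPolynomial.aeval (fun j => eval₂ (φ : K →+* L) α (c j)) F := by
  let θ : K[X] →ₐ[k] L :=
    { Polynomial.eval₂RingHom (φ : K →+* L) α with
      commutes' := fun r => by
        change eval₂ (φ : K →+* L) α (algebraMap k K[X] r) = _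
        rw [Polynomial.algebraMap_apply, Polynomial.eval₂_C]
        exact φ.commutes r }
  exact (MvPolynomial.comp_aeval_apply c θ F)

theorem main (h1 : St_RAT) (h2 : St_PRIM) (h3 : St_CONT) (h4 : St_BAD) (h5 : St_MANY) :
    St_ONE := by
  classical
  intro L _ _ O hH k hk s hs κ _ w b hb hsep e he
  have := Fintype.ofFinite κ
  obtain ⟨hR1, hR2⟩ := h1 L O k hk
  obtain ⟨φ, hφ⟩ := hR1 s hs
  obtain ⟨g, α, c, hg0, hg1, hw, hdiv⟩ := h2 L k s φ hφ κ w hsep
  have hgne : g ≠ 0 := by
    rintro rfl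
    exact hg1 (by simp)
  obtain ⟨m, hm0, hm⟩ := exists_rel g (c b) hgne
  have hbad := h4 L k hk (w b) hb m hm0
  -- continuity of the polynomials `c j` in the coefficients and the point
  have hcont : ∀ j, ∃ δ : L, δ ≠ 0 ∧ ∀ (ψ : RatFunc k →ₐ[k] L) (α' : L), Near O δ α' α →
      (∀ i ≤ (c j).natDegree, Near O δ (ψ ((c j).coeff i)) (φ ((c j).coeff i))) →
      Near O e (eval₂ (ψ : RatFunc k →+* L) α' (c j)) (eval₂ (φ : RatFunc k →+* L) α (c j)) := by
    intro j
    obtain ⟨δ, hδ, hδ2⟩ := h3 L O (Option (Fin ((c j).natDegree + 1)))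
      (∑ i : Fin ((c j).natDegree + 1), MvPolynomial.X (some i) * MvPolynomial.X none ^ (i : ℕ))
      (fun o => o.elim α fun i => φ ((c j).coeff i)) e he
    refine ⟨δ, hδ, fun ψ α' hα' hc => ?_⟩
    have := hδ2 (fun o => o.elim α' fun i => ψ ((c j).coeff i)) (by
      intro o
      cases o with
      | none => exact hα'
      | some i => exact hc i (Nat.lt_succ_iff.1 i.2))
    simp only [map_sum, map_mul, map_pow, MvPolynomial.eval_X, Option.elim] at this
    rw [Polynomial.eval₂_eq_sum_range, Polynomial.eval₂_eq_sum_range,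
      ← Fin.sum_univ_eq_sum_range (fun i => (ψ : RatFunc k →+* L) ((c j).coeff i) * α' ^ i),
      ← Fin.sum_univ_eq_sum_range (fun i => (φ : RatFunc k →+* L) ((c j).coeff i) * α ^ i)]
    exact this
  choose δ2 hδ2 hδ2' using hcont
  obtain ⟨e2, he2, he2'⟩ := exists_common (O := O) Finset.univ δ2 (fun j _ => hδ2 j)
  -- Hensel
  obtain ⟨δ1, hδ1, hδ1'⟩ := hH g.natDegree (fun i => φ (g.coeff i)) α e2 he2
    (by
      have := hg0
      rw [Polynomial.eval₂_eq_sum_range] at this
      exact this)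
    (by
      have := hg1
      rw [eval₂_derivative_sum] at this
      exact this)
  obtain ⟨e3, he3, he3'⟩ := exists_common (O := O) (Finset.univ : Finset Bool)
    (fun i => if i then δ1 else e2) (by intro i _; cases i <;> simpa)
  have he31 : ∀ x y, Near O e3 x y → Near O δ1 x y := he3' true (Finset.mem_univ _)
  have he32 : ∀ x y, Near O e3 x y → Near O e2 x y := he3' false (Finset.mem_univ _)
  choose D hD0 hD using fun q => hR2 s φ hφ q e3 he3
  obtain ⟨δ, hδ, hδ'⟩ := exists_common (O := O)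
    ((Finset.range (g.natDegree + 1)).image g.coeff ∪ (Finset.univ : Finset κ).biUnion
      fun j => (Finset.range ((c j).natDegree + 1)).image (c j).coeff) D (fun q _ => hD0 q)
  -- the specialisation
  obtain ⟨u, ⟨hus, huk⟩, hubad⟩ := ((h5 L O k s hs δ hδ).sdiff hbad).nonempty
  obtain ⟨ψ, hψ⟩ := hR1 u huk
  have hg' : ∀ i ≤ g.natDegree, Near O e3 (ψ (g.coeff i)) (φ (g.coeff i)) := by
    intro i hi
    refine hD _ u ψ hψ (hδ' _ ?_ u s hus)
    refine Finset.mem_union_left _ (Finset.mem_image.2 ⟨i, Finset.mem_range.2 (by omega), rfl⟩)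
  have hc' : ∀ j, ∀ i ≤ (c j).natDegree,
      Near O e3 (ψ ((c j).coeff i)) (φ ((c j).coeff i)) := by
    intro j i hi
    refine hD _ u ψ hψ (hδ' _ ?_ u s hus)
    refine Finset.mem_union_right _ (Finset.mem_biUnion.2 ⟨j, Finset.mem_univ _,
      Finset.mem_image.2 ⟨i, Finset.mem_range.2 (by omega), rfl⟩⟩)
  obtain ⟨α', hα', hroot⟩ := hδ1' (fun i => ψ (g.coeff i)) (fun i hi => he31 _ _ (hg' i hi))
  have hroot' : eval₂ (ψ : RatFunc k →+* L) α' g = 0 := by
    rw [Polynomial.eval₂_eq_sum_range]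
    exact hroot
  have hzero : ∀ f : (RatFunc k)[X], g ∣ f → eval₂ (ψ : RatFunc k →+* L) α' f = 0 := by
    rintro f ⟨q, rfl⟩
    rw [Polynomial.eval₂_mul, hroot', zero_mul]
  refine ⟨fun j => eval₂ (ψ : RatFunc k →+* L) α' (c j), fun j => ?_, ?_, fun F hF => ?_⟩
  · rw [hw j]
    refine hδ2' j ψ α' (he2' j (Finset.mem_univ _) _ _ hα') fun i hi => ?_
    exact he2' j (Finset.mem_univ _) _ _ (he32 _ _ (hc' j i hi))
  · intro heq
    refine hubad ⟨ψ, hψ, ?_⟩
    have h6 := hzero _ hm
    rw [← heq]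
    have h7 : eval₂ (ψ : RatFunc k →+* L) α' (m.comp (c b))
        = eval₂ (ψ : RatFunc k →+* L) (eval₂ (ψ : RatFunc k →+* L) α' (c b)) m := by
      have := Polynomial.hom_eval₂ m (C : RatFunc k →+* (RatFunc k)[X])
        (Polynomial.eval₂RingHom (ψ : RatFunc k →+* L) α') (c b)
      rw [Polynomial.comp]
      refine this.trans ?_
      congr 1
      ext x
      simp
    rw [← h7]
    exact h6
  · have h6 : eval₂ (φ : RatFunc k →+* L) α (MvPolynomial.aeval c F) = 0 := by
      rw [eval₂_aeval, ← hF]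
      congr 1
      congr 1
      funext j
      exact (hw j).symm
    have h7 := hzero _ (hdiv _ h6)
    rw [eval₂_aeval] at h7
    exact h7

end Pool.Agent.Helper90.XF.ONE
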